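import Pool.Agent.W418.LU.Base
import Pool.Agent.W558.S.All
import Pool.Agent.H920R2.Sr1

set_option autoImplicit false
set_option linter.unusedVariables false

open Pool.Agent.W558 Pool.Agent.H920R2

namespace Pool.Agent.W418.LU

/-- Smooth charts over graded domains of complexity two. -/
theorem exists_LM (k A : Type) [Field k] [PerfectField k] [CommRing A]
    [IsDomain A] [Algebra k A] [Algebra.FiniteType k A] (r : ℕ)
    (𝒜 : (Fin r → ℤ) → Submodule k A) [GradedAlgebra 𝒜]
    (h2 : Algebra.trdeg k (homFrac 𝒜) = 2) (hM : HasModel k (homFrac 𝒜)) :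
    ∃ (T I : Type) (_ : Finite T) (_ : Fintype I),
      Nonempty (LM (IsScalarTower.toAlgHom k A (FractionRing A)).range
        (IsScalarTower.toAlgHom k A (FractionRing A)).range T I) := by
  obtain ⟨n, z, m, h, a, hz, hh, hA⟩ := all_gr.{0} k A r 𝒜
  obtain ⟨s⟩ := all_init.{0} k (homFrac 𝒜) hM
  obtain ⟨s', Γ, hΓ⟩ := all_log.{0} k (homFrac 𝒜) h2 s (Fin m) h hh
  obtain ⟨T1, I1, i1, i2, M1, Γ1, hΓ1⟩ :=
    all_tor.{0} k (homFrac 𝒜) (FractionRing A) s'.T s'.I (Fin m) s'.M h Γ hΓ n z hz
  have hmono := fn_mono hΓ1 (ι := Fin m)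
    (fun b => Sum.elim (fun b' => if b' = b then (1 : ℤ) else 0) (a b))
  have e1 : (fun i => ∏ b : Fin m ⊕ Fin n, (Sum.elim (fun b => algebraMap (homFrac 𝒜)
      (FractionRing A) (h b)) z) b ^ (Sum.elim (fun b' => if b' = i then (1 : ℤ) else 0) (a i)) b)
      = fun b => (h b : FractionRing A) * ∏ j, z j ^ a b j := by
    funext b
    rw [Fintype.prod_sum_type]
    congr 1
    rw [Finset.prod_eq_single b]
    · simp
    · intro b' _ hb'
      simp [hb']
    · simp
  rw [e1] at hmono
  let g : A →ₐ[k] FractionRing A := IsScalarTower.toAlgHom k A (FractionRing A)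
  have hfr : ∀ x : FractionRing A, ∃ a ∈ g.range, ∃ b ∈ g.range, b ≠ 0 ∧ x = a * b⁻¹ := by
    intro x
    obtain ⟨a, b, hb, rfl⟩ := IsFractionRing.div_surjective (A := A) x
    refine ⟨_, ⟨a, rfl⟩, _, ⟨b, rfl⟩, ?_, ?_⟩
    · exact (FaithfulSMul.algebraMap_eq_zero_iff A (FractionRing A)).not.2
        (nonZeroDivisors.ne_zero hb)
    · rw [div_eq_mul_inv]
      rfl
  obtain ⟨T2, I2, j1, j2, M2, Γ2, -, -⟩ := all_restr.{0} k (FractionRing A) T1 I1 (Fin m) M1 _ _
    hmono Set.univ g.range (by rw [Set.image_univ]; exact hA) hfr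
  exact ⟨T2, I2, j1, j2, ⟨M2⟩⟩

/-- Local uniformization of the localizations of a domain with smooth charts. -/
theorem uniformized_of_LM {k A : Type} [Field k] [CommRing A] [IsDomain A] [Algebra k A]
    {T I : Type} (M : LM (IsScalarTower.toAlgHom k A (FractionRing A)).range
        (IsScalarTower.toAlgHom k A (FractionRing A)).range T I)
    (q : Ideal A) [q.IsPrime] {R : Type} [CommRing R] [Algebra A R] [IsLocalization.AtPrime R q]
    [IsLocalRing R] {K : Type} [Field K] [Algebra R K] [IsFractionRing R K]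
    (V : ValuationSubring K) (hV1 : ∀ r : R, algebraMap R K r ∈ V)
    (hV2 : ∀ r : R, r ∈ IsLocalRing.maximalIdeal R ↔ V.valuation (algebraMap R K r) < 1) :
    UniformizedBy R K V := by
  let _ : Algebra A K := ((algebraMap R K).comp (algebraMap A R)).toAlgebra
  have t1 : IsScalarTower A R K := IsScalarTower.of_algebraMap_eq fun a => rfl
  let _ : Algebra k K := ((algebraMap A K).comp (algebraMap k A)).toAlgebra
  have t2 : IsScalarTower k A K := IsScalarTower.of_algebraMap_eq fun a => rfl
  have hinjAR : Function.Injective (algebraMap A R) :=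
    IsLocalization.injective R (Ideal.primeCompl_le_nonZeroDivisors q)
  have hinj : Function.Injective (algebraMap A K) :=
    (IsFractionRing.injective R K).comp hinjAR
  have hfaith : FaithfulSMul A K := (faithfulSMul_iff_algebraMap_injective A K).2 hinj
  have hfr : IsFractionRing A K := by
    refine IsFractionRing.of_field A K ?_
    intro z
    obtain ⟨r, s, hs, rfl⟩ := IsFractionRing.div_surjective (A := R) z
    obtain ⟨⟨a, t⟩, h1⟩ := IsLocalization.surj q.primeCompl r
    obtain ⟨⟨b, u⟩, h2⟩ := IsLocalization.surj q.primeCompl s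
    have ht0 : algebraMap A K (t : A) ≠ 0 := fun h => by
      rw [← map_zero (algebraMap A K)] at h
      exact t.2 (by rw [hinj h]; exact q.zero_mem)
    have hu0 : algebraMap A K (u : A) ≠ 0 := fun h => by
      rw [← map_zero (algebraMap A K)] at h
      exact u.2 (by rw [hinj h]; exact q.zero_mem)
    have hs0 : algebraMap R K s ≠ 0 := fun h => by
      rw [← map_zero (algebraMap R K)] at h
      exact nonZeroDivisors.ne_zero hs (IsFractionRing.injective R K h)
    refine ⟨a * u, b * t, ?_⟩
    have h1' : algebraMap R K r * algebraMap A K (t : A) = algebraMap A K a := by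
      rw [IsScalarTower.algebraMap_apply A R K, IsScalarTower.algebraMap_apply A R K, ← h1,
        map_mul]
    have h2' : algebraMap R K s * algebraMap A K (u : A) = algebraMap A K b := by
      rw [IsScalarTower.algebraMap_apply A R K, IsScalarTower.algebraMap_apply A R K, ← h2,
        map_mul]
    rw [map_mul, map_mul, ← h1', ← h2']
    field_simp
  let e : FractionRing A ≃ₐ[A] K := FractionRing.algEquiv A K
  let e' : FractionRing A →ₐ[k] K := (e : FractionRing A →ₐ[A] K).restrictScalars k
  obtain ⟨t, ht⟩ := M.cv (V.comap (e : FractionRing A →+* K)) (by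
    rintro _ ⟨a, rfl⟩
    change e (algebraMap A (FractionRing A) a) ∈ V
    rw [e.commutes]
    exact hV1 _)
  let C : Subalgebra k K := (M.A t).map e'
  have hsm := M.sm t
  let eC : M.A t ≃ₐ[k] C := (M.A t).equivMapOfInjective e' e.injective
  have hsmC : Algebra.Smooth k C := Algebra.Smooth.of_equiv eC
  have hft : Algebra.FiniteType k C := inferInstance
  have hreg : ∀ (q' : Ideal C) [q'.IsPrime], IsRegularLocalRing (Localization.AtPrime q') := by
    intro q' hq'
    exact regular_of_smooth (k := k) (A := C) q'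
  refine uniformized_of_chart (k := k) (A := A) q V hV1 hV2 C (C.fg_iff_finiteType.2 hft) ?_ ?_
    hreg
  · intro a
    refine ⟨algebraMap A (FractionRing A) a, M.base t ⟨a, rfl⟩, ?_⟩
    exact e.commutes a
  · rintro _ ⟨x, hx, rfl⟩
    exact ht x hx

end Pool.Agent.W418.LU
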