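import Mathlib

set_option autoImplicit false

namespace Pool.Agent.W418.LU

/-- The local domain `R` admits local uniformization along the valuation ring `V` of its field of
fractions `K`: there is a finitely generated `R`-algebra `A` contained in `V` whose localization
at the centre of `V` is a regular local ring. -/
def UniformizedBy (R K : Type) [CommRing R] [Field K] [Algebra R K] (V : ValuationSubring K) :
    Prop :=
  ∃ A : Subalgebra R K, A.FG ∧ (∀ a : A, (a : K) ∈ V) ∧
    ∃ P : Ideal A, ∃ (_ : P.IsPrime),
      (∀ a : A, a ∈ P ↔ V.valuation (a : K) < 1) ∧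
      IsNoetherianRing (Localization.AtPrime P) ∧
      ringKrullDim (Localization.AtPrime P) =
        (((Module.finrank (IsLocalRing.ResidueField (Localization.AtPrime P))
            (IsLocalRing.CotangentSpace (Localization.AtPrime P)) : ℕ) : ℕ∞) : WithBot ℕ∞)

/-- The centre of a valuation ring on a subring contained in it. -/
def cen {K : Type} [Field K] {R : Type} [CommRing R] [Algebra R K] (V : ValuationSubring K)
    (C : Subalgebra R K) (hC : ∀ x ∈ C, x ∈ V) : Ideal C where
  carrier := {a | V.valuation (a : K) < 1}
  add_mem' := by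
    intro a b ha hb
    change V.valuation ((a : K) + b) < 1
    exact lt_of_le_of_lt (V.valuation.map_add _ _) (max_lt ha hb)
  zero_mem' := by
    change V.valuation (((0 : C) : K)) < 1
    rw [Subalgebra.coe_zero, map_zero]
    exact zero_lt_one
  smul_mem' := by
    intro c a ha
    change V.valuation ((c : K) * a) < 1
    rw [map_mul]
    exact mul_lt_one_of_nonneg_of_lt_one_right ((V.valuation_le_one_iff _).2 (hC c c.2))
      zero_le ha

lemma mem_cen {K : Type} [Field K] {R : Type} [CommRing R] [Algebra R K] {V : ValuationSubring K}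
    {C : Subalgebra R K} {hC : ∀ x ∈ C, x ∈ V} {a : C} :
    a ∈ cen V C hC ↔ V.valuation (a : K) < 1 := Iff.rfl

lemma isPrime_cen {K : Type} [Field K] {R : Type} [CommRing R] [Algebra R K]
    {V : ValuationSubring K} {C : Subalgebra R K} {hC : ∀ x ∈ C, x ∈ V} :
    (cen V C hC).IsPrime where
  ne_top' := by
    intro h
    rw [Ideal.eq_top_iff_one, mem_cen, Subalgebra.coe_one, map_one] at h
    exact lt_irrefl _ h
  mem_or_mem' := by
    intro a b hab
    rw [mem_cen, Subalgebra.coe_mul, map_mul] at hab
    rw [mem_cen, mem_cen]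
    by_contra hcon
    push Not at hcon
    have h1 : V.valuation (a : K) = 1 :=
      le_antisymm ((V.valuation_le_one_iff _).2 (hC a a.2)) hcon.1
    have h2 : V.valuation (b : K) = 1 :=
      le_antisymm ((V.valuation_le_one_iff _).2 (hC b b.2)) hcon.2
    rw [h1, h2, one_mul] at hab
    exact lt_irrefl _ hab

/-- Local uniformization from a chart. -/
theorem uniformized_of_chart {k A R K : Type} [CommRing k] [CommRing A] [Algebra k A] [CommRing R]
    [Algebra A R] (q : Ideal A) [q.IsPrime] [IsLocalization.AtPrime R q] [IsLocalRing R] [Field K]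
    [Algebra R K] [Algebra k K] [Algebra A K] [IsScalarTower A R K] [IsScalarTower k A K]
    (V : ValuationSubring K) (hV1 : ∀ r : R, algebraMap R K r ∈ V)
    (hV2 : ∀ r : R, r ∈ IsLocalRing.maximalIdeal R ↔ V.valuation (algebraMap R K r) < 1)
    (C : Subalgebra k K) (hfg : C.FG) (hAC : ∀ a : A, algebraMap A K a ∈ C)
    (hCV : ∀ x ∈ C, x ∈ V)
    (hreg : ∀ (q : Ideal C) [q.IsPrime], IsRegularLocalRing (Localization.AtPrime q)) :
    UniformizedBy R K V := by
  obtain ⟨S, hS⟩ := hfg
  let A' : Subalgebra R K := Algebra.adjoin R (S : Set K)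
  have hAV : ∀ x ∈ A', x ∈ V := by
    intro x hx
    induction hx using Algebra.adjoin_induction with
    | mem x hx => exact hCV x (by rw [← hS]; exact Algebra.subset_adjoin hx)
    | algebraMap r => exact hV1 r
    | add x y _ _ hx hy => exact V.add_mem _ _ hx hy
    | mul x y _ _ hx hy => exact V.mul_mem _ _ hx hy
  have hCA : ∀ x ∈ C, x ∈ A' := by
    intro x hx
    rw [← hS] at hx
    induction hx using Algebra.adjoin_induction with
    | mem x hx => exact Algebra.subset_adjoin hx
    | algebraMap r =>
      rw [IsScalarTower.algebraMap_apply k A K, IsScalarTower.algebraMap_apply A R K]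
      exact A'.algebraMap_mem _
    | add x y _ _ hx hy => exact A'.add_mem hx hy
    | mul x y _ _ hx hy => exact A'.mul_mem hx hy
  have hform : ∀ x ∈ A', ∃ s : A, s ∉ q ∧ algebraMap A K s * x ∈ C := by
    intro x hx
    induction hx using Algebra.adjoin_induction with
    | mem x hx =>
      refine ⟨1, fun h => (Ideal.IsPrime.ne_top ‹_›) ((Ideal.eq_top_iff_one q).2 h), ?_⟩
      rw [map_one, one_mul, ← hS]
      exact Algebra.subset_adjoin hx
    | algebraMap r =>
      obtain ⟨⟨a, s⟩, h⟩ := IsLocalization.surj q.primeCompl r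
      refine ⟨s, s.2, ?_⟩
      have h1 : algebraMap A K s * algebraMap R K r = algebraMap A K a := by
        rw [IsScalarTower.algebraMap_apply A R K, IsScalarTower.algebraMap_apply A R K, ← h,
          map_mul, mul_comm]
      rw [h1]
      exact hAC a
    | add x y _ _ hx hy =>
      obtain ⟨s, hs, h1⟩ := hx
      obtain ⟨t, ht, h2⟩ := hy
      refine ⟨s * t, fun h => ((Ideal.IsPrime.mem_or_mem ‹_› h).elim hs ht), ?_⟩
      have : algebraMap A K (s * t) * (x + y) = algebraMap A K t * (algebraMap A K s * x) +
          algebraMap A K s * (algebraMap A K t * y) := by rw [map_mul]; ring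
      rw [this]
      exact C.add_mem (C.mul_mem (hAC t) h1) (C.mul_mem (hAC s) h2)
    | mul x y _ _ hx hy =>
      obtain ⟨s, hs, h1⟩ := hx
      obtain ⟨t, ht, h2⟩ := hy
      refine ⟨s * t, fun h => ((Ideal.IsPrime.mem_or_mem ‹_› h).elim hs ht), ?_⟩
      have : algebraMap A K (s * t) * (x * y) = (algebraMap A K s * x) *
          (algebraMap A K t * y) := by rw [map_mul]; ring
      rw [this]
      exact C.mul_mem h1 h2
  have hval : ∀ s : A, s ∉ q → V.valuation (algebraMap A K s) = 1 := by
    intro s hs
    have h1 : IsUnit (algebraMap A R s) := IsLocalization.map_units R (⟨s, hs⟩ : q.primeCompl)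
    have h2 : algebraMap A R s ∉ IsLocalRing.maximalIdeal R := by
      rw [IsLocalRing.mem_maximalIdeal, mem_nonunits_iff]
      exact not_not.2 h1
    rw [hV2, not_lt, ← IsScalarTower.algebraMap_apply A R K] at h2
    exact le_antisymm ((V.valuation_le_one_iff _).2 (hCV _ (hAC s))) h2
  let P := cen V A' hAV
  have hP : P.IsPrime := isPrime_cen
  let PC := cen V C hCV
  have hPC : PC.IsPrime := isPrime_cen
  let L := Localization.AtPrime P
  let j : C →+* A' :=
    { toFun := fun x => ⟨x, hCA x x.2⟩
      map_one' := rfl
      map_mul' := fun x y => rfl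
      map_zero' := rfl
      map_add' := fun x y => rfl }
  let _ : Algebra C L := ((algebraMap A' L).comp j).toAlgebra
  have hal : ∀ x, algebraMap C L x = algebraMap A' L (j x) := fun x => rfl
  have hloc : IsLocalization PC.primeCompl L := by
    refine { map_units := ?_, surj := ?_, exists_of_eq := ?_ }
    · rintro ⟨s, hs⟩
      exact IsLocalization.map_units L (⟨j s, hs⟩ : P.primeCompl)
    · intro z
      obtain ⟨⟨a, b⟩, h⟩ := IsLocalization.surj P.primeCompl z
      obtain ⟨s, hs, h1⟩ := hform a a.2
      obtain ⟨t, ht, h2⟩ := hform b b.1.2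
      have hb : V.valuation ((b : A') : K) = 1 := by
        have := b.2
        change ¬ V.valuation ((b : A') : K) < 1 at this
        exact le_antisymm ((V.valuation_le_one_iff _).2 (hAV _ b.1.2)) (not_lt.1 this)
      let y : C := ⟨algebraMap A K s * (algebraMap A K t * (b : A')), C.mul_mem (hAC s) h2⟩
      have hy : y ∈ PC.primeCompl := by
        change ¬ V.valuation (algebraMap A K s * (algebraMap A K t * (b : A'))) < 1
        rw [map_mul, map_mul, hval s hs, hval t ht, hb, one_mul, one_mul]
        exact lt_irrefl _
      refine ⟨⟨⟨algebraMap A K t * (algebraMap A K s * (a : A')), C.mul_mem (hAC t) h1⟩,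
        ⟨y, hy⟩⟩, ?_⟩
      let s' : A' := ⟨algebraMap A K s, hCA _ (hAC s)⟩
      let t' : A' := ⟨algebraMap A K t, hCA _ (hAC t)⟩
      have e1 : j y = s' * t' * b := by
        apply Subtype.ext
        change algebraMap A K s * (algebraMap A K t * (b : A')) = _ * _ * _
        ring
      have e2 : j ⟨algebraMap A K t * (algebraMap A K s * (a : A')), C.mul_mem (hAC t) h1⟩ =
          s' * t' * a := by
        apply Subtype.ext
        change algebraMap A K t * (algebraMap A K s * (a : A')) = _ * _ * _
        ring
      change z * algebraMap A' L (j y) = algebraMap A' L (j _)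
      rw [e1, e2, map_mul, map_mul (algebraMap A' L) (s' * t') a, ← h]
      ring
    · intro x y hxy
      refine ⟨1, ?_⟩
      have h1 : Function.Injective (algebraMap A' L) :=
        IsLocalization.injective L (Ideal.primeCompl_le_nonZeroDivisors P)
      have h2 := h1 hxy
      have h3 : (x : K) = y := congrArg (Subtype.val : A' → K) h2
      rw [Subtype.ext h3]
  have hregL : IsRegularLocalRing L := by
    have h1 := hreg PC
    exact IsRegularLocalRing.of_ringEquiv
      (IsLocalization.algEquiv PC.primeCompl (Localization.AtPrime PC) L).toRingEquiv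
  have hN : IsNoetherianRing L := hregL.toIsNoetherian
  refine ⟨A', ⟨S, rfl⟩, fun a => hAV a a.2, P, hP, fun a => Iff.rfl, hN, ?_⟩
  exact ((IsRegularLocalRing.iff_finrank_cotangentSpace L).1 hregL).symm

end Pool.Agent.W418.LU
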